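import Mathlib

set_option autoImplicit false

namespace Pool.Agent.Results.MP_7b4a8e_an.Three

theorem result : ∃ (A p : ℝ) (k : ℕ) (x : ℕ → ℝ), 0 < A ∧ 0 < p ∧ (∀ n, 0 < x n) ∧
    (∀ n, x (n + k + 1) = A / x (n + k) ^ 2 + 1 / x n ^ p) ∧
    IsLeast {N : ℕ | 1 ≤ N ∧ ∀ n, x (n + N) = x n} 3 := by
  set r := Real.sqrt 2 with hr
  have r2 : r ^ 2 = 2 := Real.sq_sqrt (by norm_num)
  have r0 : 0 ≤ r := Real.sqrt_nonneg _
  have r1 : 1 < r := by nlinarith
  have r3 : r < 2 := by nlinarith
  set p := Real.log (1 / (2 - r)) / Real.log r with hp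
  have l1 : 0 < Real.log r := Real.log_pos r1
  have l2 : 0 < Real.log (1 / (2 - r)) := Real.log_pos (by
    rw [lt_div_iff₀ (by linarith)]; linarith)
  have hpow : 1 / r ^ p = 2 - r := by
    rw [Real.rpow_def_of_pos (by linarith), hp, mul_div_cancel₀ _ l1.ne',
      Real.exp_log (by apply one_div_pos.2; linarith), one_div_one_div]
  refine ⟨2 * (r - 1), p, 1, fun n => if n % 3 = 0 then 1 else r, by linarith, div_pos l2 l1,
    fun n => by simp only; split_ifs <;> linarith, fun n => ?_, ⟨by norm_num, fun n => by simp⟩, ?_⟩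
  · have h : n % 3 = 0 ∨ n % 3 = 1 ∨ n % 3 = 2 := by omega
    rcases h with h | h | h
    · have h1 : (n + 1) % 3 ≠ 0 := by omega
      have h2 : (n + 1 + 1) % 3 ≠ 0 := by omega
      simp only [h, h1, h2, if_true, if_false, r2, Real.one_rpow]
      ring
    · have h0 : n % 3 ≠ 0 := by omega
      have h1 : (n + 1) % 3 ≠ 0 := by omega
      have h2 : (n + 1 + 1) % 3 = 0 := by omega
      simp only [h0, h1, h2, if_true, if_false, r2, hpow]
      ring
    · have h0 : n % 3 ≠ 0 := by omega
      have h1 : (n + 1) % 3 = 0 := by omega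
      have h2 : (n + 1 + 1) % 3 ≠ 0 := by omega
      simp only [h0, h1, h2, if_true, if_false, hpow]
      ring
  · rintro N ⟨h1, h2⟩
    have := h2 0
    simp only [zero_add, Nat.zero_mod, if_true] at this
    by_contra hlt
    rw [if_neg (by omega)] at this
    linarith

end Pool.Agent.Results.MP_7b4a8e_an.Three
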